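import Pool.Agent.Y781.JR.Dens
import Pool.Agent.Y445.JRB.Buch
import Pool.Agent.W366.DC.SFX
import Pool.Agent.Y882.JR.Lim

/-!
# Prime and rough values of `n ^ 2 + a` in almost all short intervals, with the constants of the linear sieve
-/

set_option autoImplicit false

namespace Pool.Agent.Q26.JR

open Finset Filter Topology
open Pool.Agent.Y882.JR (dens rough finJR A0_eq)
open Pool.Agent.W23.DC (SF)

/-- the number of the `n` in `(N, N + H]` such that `|n ^ 2 + a|` is prime -/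
def primesIn (a : ℤ) (N H : ℕ) : ℕ :=
  ((Ioc N (N + H)).filter (fun n : ℕ => ((n : ℤ) ^ 2 + a).natAbs.Prime)).card

lemma dens_lim (a : ℤ) (L : ℝ) (h2 : Tendsto (fun z : ℝ => dens a z * Real.log z) atTop (𝓝 L)) (t s : ℝ)
    (ht : 0 < t) (hs : 0 < s) :
    Tendsto (fun X : ℕ => dens a ((X : ℝ) ^ (t / s)) * Real.log X) atTop (𝓝 (L * (s / t))) := by
  have h3 : Tendsto (fun X : ℕ => (X : ℝ) ^ (t / s)) atTop atTop :=
    (tendsto_rpow_atTop (by positivity)).comp tendsto_natCast_atTop_atTop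
  have h4 := (h2.comp h3).mul_const (s / t)
  refine h4.congr' ?_
  filter_upwards [eventually_ge_atTop 1] with X hX
  have hX0 : (0 : ℝ) < X := by exact_mod_cast hX
  simp only [Function.comp]
  rw [Real.log_rpow hX0]
  field_simp

/-- primes are rough, up to few small arguments -/
lemma primes_le (a : ℤ) (z : ℝ) (hz : (a.natAbs : ℝ) ≤ z) (N H : ℕ) :
    (primesIn a N H : ℝ) ≤ rough a z N H + 2 * √z ∧
    (2 * √z ≤ N → (primesIn a N H : ℝ) ≤ rough a z N H) := by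
  classical
  have hz0 : 0 ≤ z := (Nat.cast_nonneg _).trans hz
  have hsmall : ∀ n : ℕ, ((n : ℤ) ^ 2 + a).natAbs.Prime → ¬ (∀ p : ℕ, p.Prime → (p : ℤ) ∣ (n : ℤ) ^ 2 + a → z ≤ p) →
      (n : ℝ) < 2 * √z := by
    intro n hn h
    push Not at h
    obtain ⟨p, hp, hd, hlt⟩ := h
    have h1 : p ∣ ((n : ℤ) ^ 2 + a).natAbs := Int.natCast_dvd.1 hd
    have h2 : p = ((n : ℤ) ^ 2 + a).natAbs := (Nat.prime_dvd_prime_iff_eq hp hn).1 h1
    have h3 : ((((n : ℤ) ^ 2 + a).natAbs : ℕ) : ℝ) < z := by rw [← h2]; exact hlt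
    have h4 : ((n : ℝ)) ^ 2 ≤ (((n : ℤ) ^ 2 + a).natAbs : ℝ) + a.natAbs := by
      rw [Nat.cast_natAbs, Nat.cast_natAbs]
      push_cast
      have e1 := le_abs_self ((n : ℝ) ^ 2 + a)
      have e2 := neg_abs_le (a : ℝ)
      linarith
    have h5 : (n : ℝ) ^ 2 < (2 * √z) ^ 2 := by
      rw [mul_pow, Real.sq_sqrt hz0]
      nlinarith
    exact lt_of_pow_lt_pow_left₀ 2 (by positivity) h5
  constructor
  · have h1 : (Ioc N (N + H)).filter (fun n : ℕ => ((n : ℤ) ^ 2 + a).natAbs.Prime) ⊆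
        (Ioc N (N + H)).filter (fun n : ℕ => ∀ p : ℕ, p.Prime → (p : ℤ) ∣ (n : ℤ) ^ 2 + a → z ≤ p) ∪
        Ioc 0 ⌊2 * √z⌋₊ := by
      intro n hn
      rw [mem_filter] at hn
      rw [mem_union]
      by_cases h : ∀ p : ℕ, p.Prime → (p : ℤ) ∣ (n : ℤ) ^ 2 + a → z ≤ p
      · left
        rw [mem_filter]
        exact ⟨hn.1, h⟩
      · right
        rw [mem_Ioc]
        have h6 := mem_Ioc.1 hn.1
        exact ⟨by omega, Nat.le_floor (hsmall n hn.2 h).le⟩
    have h2 := (card_le_card h1).trans (card_union_le _ _)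
    rw [Nat.card_Ioc, Nat.sub_zero] at h2
    have h3 : (⌊2 * √z⌋₊ : ℝ) ≤ 2 * √z := Nat.floor_le (by positivity)
    have h4 : (primesIn a N H : ℝ) ≤ (rough a z N H : ℝ) + (⌊2 * √z⌋₊ : ℝ) := by
      unfold primesIn rough
      exact_mod_cast h2
    linarith
  · intro hN
    have h1 : (Ioc N (N + H)).filter (fun n : ℕ => ((n : ℤ) ^ 2 + a).natAbs.Prime) ⊆
        (Ioc N (N + H)).filter (fun n : ℕ => ∀ p : ℕ, p.Prime → (p : ℤ) ∣ (n : ℤ) ^ 2 + a → z ≤ p) := by
      intro n hn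
      rw [mem_filter] at hn ⊢
      refine ⟨hn.1, ?_⟩
      by_contra h
      have h5 := hsmall n hn.2 h
      have h6 : (N : ℝ) < n := by exact_mod_cast (mem_Ioc.1 hn.1).1
      linarith
    have h2 := card_le_card h1
    unfold primesIn rough
    exact_mod_cast h2

open Classical in
theorem main (a : ℤ) (ha : ¬ IsSquare (-a)) : ∃ C : ℝ, 0 < C ∧ Tendsto (Pool.Agent.Y781.JR.RR a) atTop (𝓝 C) ∧
    ∀ t h s δ ε : ℝ, 1 / 2 ≤ t → t < 1 → 0 < h → h ≤ 1 → 2 ≤ s → s ≤ 4 → 0 < δ → 0 < ε →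
    ∀ᶠ X : ℕ in atTop, (((Icc 1 X).filter (fun N =>
      ¬ ((primesIn a N ⌊(X : ℝ) ^ h⌋₊ : ℝ) ≤ (2 / t + δ) * (C * ((X : ℝ) ^ h / Real.log X)) ∧
        (2 * Real.log (s - 1) / t - δ) * (C * ((X : ℝ) ^ h / Real.log X)) ≤
          (rough a ((X : ℝ) ^ (t / s)) N ⌊(X : ℝ) ^ h⌋₊ : ℝ)))).card : ℝ) ≤
      (X : ℝ) ^ (2 * t - h + ε) := by
  obtain ⟨A0, F, f, hSF⟩ := Pool.Agent.W366.DC.SFX
  have hA : A0 = 2 * Real.exp Real.eulerMascheroniConstant :=
    A0_eq Pool.Agent.Y445.JRB.t hSF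
  obtain ⟨C, hC, h1, h2⟩ := Pool.Agent.Y781.JR.t a ha
  refine ⟨C, hC, ?_, ?_⟩
  · refine h1.congr (fun N => ?_)
    rw [Pool.Agent.Y781.JR.dens_eq, Nat.ceil_natCast]
    change Pool.Agent.Y781.JR.GG N * Pool.Agent.Y781.JR.RR a N / Pool.Agent.Y781.JR.GG N = _
    rw [mul_div_cancel_left₀ _ (Pool.Agent.Y781.JR.GG_pos N).ne']
  intro t h s δ ε ht1 ht2 hh hh1 hs2 hs4 hδ hε
  set E : ℝ := Real.exp (-Real.eulerMascheroniConstant) with hE
  have hE0 : 0 < E := Real.exp_pos _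
  have hAE : A0 * E = 2 := by
    rw [hA, hE, mul_assoc, ← Real.exp_add]
    simp
  have ht0 : 0 < t := by linarith
  have hs0 : 0 < s := by linarith
  have hD3 := dens_lim a (C * E) h2 t 3 ht0 (by norm_num)
  have hDs := dens_lim a (C * E) h2 t s ht0 hs0
  -- upper bound
  set δ1 : ℝ := δ * t / (12 * E) with hδ1
  have hδ10 : 0 < δ1 := by positivity
  have hU : ∀ᶠ X : ℕ in atTop, (F 3 + δ1) * (dens a ((X : ℝ) ^ (t / 3)) * Real.log X) ≤ (2 / t + δ / 2) * C := by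
    have h3 := hD3.const_mul (F 3 + δ1)
    have h4 : ∀ᶠ y in 𝓝 ((F 3 + δ1) * (C * E * (3 / t))), y ≤ (2 / t + δ / 2) * C := by
      apply Iic_mem_nhds
      rw [hSF.F3 3 (by norm_num) (by norm_num)]
      have e : (A0 / 3 + δ1) * (C * E * (3 / t)) = C * (A0 * E) / t + 3 * (δ1 * E) * C / t := by
        field_simp
      have e2 : δ1 * E = δ * t / 12 := by rw [hδ1]; field_simp
      rw [e, hAE, e2]
      have e3 : C * 2 / t + 3 * (δ * t / 12) * C / t = (2 / t + δ / 4) * C := by field_simp; ring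
      rw [e3]
      have := mul_pos hδ hC
      nlinarith
    exact h3.eventually h4
  -- lower bound
  set δ2 : ℝ := δ * t / (2 * s * E) with hδ2
  have hδ20 : 0 < δ2 := by positivity
  have hL : ∀ᶠ X : ℕ in atTop, (2 * Real.log (s - 1) / t - δ) * C ≤
      (f s - δ2) * (dens a ((X : ℝ) ^ (t / s)) * Real.log X) := by
    have h3 := hDs.const_mul (f s - δ2)
    have h4 : ∀ᶠ y in 𝓝 ((f s - δ2) * (C * E * (s / t))), (2 * Real.log (s - 1) / t - δ) * C ≤ y := by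
      apply Ici_mem_nhds
      rw [hSF.f4 s hs2 hs4]
      have e : (A0 * Real.log (s - 1) / s - δ2) * (C * E * (s / t)) =
          C * (A0 * E) * Real.log (s - 1) / t - s * (δ2 * E) * C / t := by
        field_simp
      have e2 : δ2 * E = δ * t / (2 * s) := by rw [hδ2]; field_simp
      rw [e, hAE, e2]
      have e3 : C * 2 * Real.log (s - 1) / t - s * (δ * t / (2 * s)) * C / t =
          (2 * Real.log (s - 1) / t - δ / 2) * C := by field_simp
      rw [e3]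
      have := mul_pos hδ hC
      nlinarith
    exact h3.eventually h4
  have j1 := finJR A0 F f hSF a ha t 3 h δ1 (ε / 2) ht1 ht2 (by norm_num) hh hh1 hδ10 (by linarith)
  have j2 := finJR A0 F f hSF a ha t s h δ2 (ε / 2) ht1 ht2 (by linarith) hh hh1 hδ20 (by linarith)
  have ev1 : ∀ᶠ X : ℕ in atTop, (a.natAbs : ℝ) ≤ (X : ℝ) ^ (t / 3) :=
    ((tendsto_rpow_atTop (by positivity)).comp tendsto_natCast_atTop_atTop).eventually_ge_atTop _
  have ev2 : ∀ᶠ X : ℕ in atTop, (4 : ℝ) ≤ (X : ℝ) ^ (ε / 2) :=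
    ((tendsto_rpow_atTop (by linarith)).comp tendsto_natCast_atTop_atTop).eventually_ge_atTop _
  have ev3 : ∀ᶠ X : ℕ in atTop, h ≤ t / 3 ∨ 2 * (X : ℝ) ^ (t / 6) ≤ δ / 2 * (C * ((X : ℝ) ^ h / Real.log X)) := by
    by_cases hc : h ≤ t / 3
    · exact Eventually.of_forall fun _ => Or.inl hc
    · push Not at hc
      have hd : 0 < h - t / 6 := by linarith
      have h4 := (isLittleO_log_rpow_atTop hd).bound (show (0 : ℝ) < δ * C / 4 by positivity)
      filter_upwards [tendsto_natCast_atTop_atTop.eventually h4, eventually_ge_atTop 2] with X hX hX2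
      right
      have hXr : (2 : ℝ) ≤ X := by exact_mod_cast hX2
      have hX0 : (0 : ℝ) < X := by linarith
      have hlX : 0 < Real.log X := Real.log_pos (by linarith)
      rw [Real.norm_of_nonneg hlX.le, Real.norm_of_nonneg (show 0 ≤ (X : ℝ) ^ (h - t / 6) by positivity)] at hX
      have e1 : (X : ℝ) ^ h = (X : ℝ) ^ (t / 6) * (X : ℝ) ^ (h - t / 6) := by
        rw [← Real.rpow_add hX0]; ring_nf
      rw [e1]
      have e2 : δ / 2 * (C * ((X : ℝ) ^ (t / 6) * (X : ℝ) ^ (h - t / 6) / Real.log X)) =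
          (X : ℝ) ^ (t / 6) * (2 * (δ * C / 4 * (X : ℝ) ^ (h - t / 6)) / Real.log X) := by ring
      rw [e2, mul_comm 2 ((X : ℝ) ^ (t / 6))]
      apply mul_le_mul_of_nonneg_left _ (by positivity)
      rw [le_div_iff₀ hlX]
      linarith
  have ev4 : ∀ᶠ X : ℕ in atTop, (8 : ℝ) ≤ (X : ℝ) ^ ε :=
    ((tendsto_rpow_atTop hε).comp tendsto_natCast_atTop_atTop).eventually_ge_atTop _
  filter_upwards [hU, hL, j1, j2, ev1, ev2, ev3, ev4, eventually_ge_atTop 3] with X u1 l1 k1 k2 e1 e2 e3 e4 hX3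
  have hXr : (3 : ℝ) ≤ X := by exact_mod_cast hX3
  have hX0 : (0 : ℝ) < X := by linarith
  have hX1 : (1 : ℝ) ≤ X := by linarith
  have hlX : 0 < Real.log X := Real.log_pos (by linarith)
  set H : ℕ := ⌊(X : ℝ) ^ h⌋₊ with hH
  set V3 : ℝ := dens a ((X : ℝ) ^ (t / 3)) with hV3
  set Vs : ℝ := dens a ((X : ℝ) ^ (t / s)) with hVs
  have hXh : 0 < (X : ℝ) ^ h := by positivity
  have u2 : (F 3 + δ1) * ((X : ℝ) ^ h * V3) ≤ (2 / t + δ / 2) * (C * ((X : ℝ) ^ h / Real.log X)) := by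
    have e : (F 3 + δ1) * ((X : ℝ) ^ h * V3) = (F 3 + δ1) * (V3 * Real.log X) * ((X : ℝ) ^ h / Real.log X) := by
      field_simp
    have hY : 0 ≤ (X : ℝ) ^ h / Real.log X := by positivity
    have e9 := mul_le_mul_of_nonneg_right u1 hY
    rw [e]
    linarith
  have l2 : (2 * Real.log (s - 1) / t - δ) * (C * ((X : ℝ) ^ h / Real.log X)) ≤ (f s - δ2) * ((X : ℝ) ^ h * Vs) := by
    have e : (f s - δ2) * ((X : ℝ) ^ h * Vs) = (f s - δ2) * (Vs * Real.log X) * ((X : ℝ) ^ h / Real.log X) := by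
      field_simp
    have hY : 0 ≤ (X : ℝ) ^ h / Real.log X := by positivity
    have e9 := mul_le_mul_of_nonneg_right l1 hY
    rw [e]
    linarith
  set z : ℝ := (X : ℝ) ^ (t / 3) with hz
  have hsz : √z = (X : ℝ) ^ (t / 6) := by
    rw [hz, Real.sqrt_eq_rpow, ← Real.rpow_mul hX0.le]
    ring_nf
  set B1 := (Icc 1 X).filter (fun N => ¬ ((f 3 - δ1) * ((X : ℝ) ^ h * V3) ≤ (rough a z N H : ℝ) ∧
        (rough a z N H : ℝ) ≤ (F 3 + δ1) * ((X : ℝ) ^ h * V3))) with hB1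
  set B2 := (Icc 1 X).filter (fun N => ¬ ((f s - δ2) * ((X : ℝ) ^ h * Vs) ≤ (rough a ((X : ℝ) ^ (t / s)) N H : ℝ) ∧
        (rough a ((X : ℝ) ^ (t / s)) N H : ℝ) ≤ (F s + δ2) * ((X : ℝ) ^ h * Vs))) with hB2
  set B3 := (Icc 1 X).filter (fun N : ℕ => h ≤ t / 3 ∧ (N : ℝ) < 2 * √z) with hB3
  have hsub : (Icc 1 X).filter (fun N =>
      ¬ ((primesIn a N H : ℝ) ≤ (2 / t + δ) * (C * ((X : ℝ) ^ h / Real.log X)) ∧
        (2 * Real.log (s - 1) / t - δ) * (C * ((X : ℝ) ^ h / Real.log X)) ≤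
          (rough a ((X : ℝ) ^ (t / s)) N H : ℝ))) ⊆ B1 ∪ B2 ∪ B3 := by
    intro N hN
    rw [mem_filter] at hN
    obtain ⟨hN1, hN2⟩ := hN
    by_contra hcon
    rw [mem_union, mem_union] at hcon
    push Not at hcon
    obtain ⟨⟨c1, c2⟩, c3⟩ := hcon
    rw [hB1, mem_filter] at c1
    rw [hB2, mem_filter] at c2
    rw [hB3, mem_filter] at c3
    push Not at c1 c2 c3
    have d1 := c1 hN1
    have d2 := c2 hN1
    have d3 := c3 hN1
    apply hN2
    refine ⟨?_, l2.trans d2.1⟩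
    obtain ⟨p1, p2⟩ := primes_le a z e1 N H
    by_cases hc : h ≤ t / 3
    · have h5 := p2 (d3 hc)
      refine (h5.trans d1.2).trans (u2.trans ?_)
      apply mul_le_mul_of_nonneg_right _ (by positivity)
      linarith
    · rcases e3 with e3 | e3
      · exact absurd e3 hc
      · rw [hsz] at p1
        have h6 : (2 / t + δ) * (C * ((X : ℝ) ^ h / Real.log X)) =
            (2 / t + δ / 2) * (C * ((X : ℝ) ^ h / Real.log X)) + δ / 2 * (C * ((X : ℝ) ^ h / Real.log X)) := by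
          ring
        rw [h6]
        linarith [d1.2]
  have hB3c : (B3.card : ℝ) ≤ (X : ℝ) ^ (2 * t - h + ε) / 4 := by
    by_cases hc : h ≤ t / 3
    · have h5 : B3 ⊆ Icc 1 ⌊2 * √z⌋₊ := by
        intro N hN
        rw [hB3, mem_filter, mem_Icc] at hN
        rw [mem_Icc]
        exact ⟨hN.1.1, Nat.le_floor hN.2.2.le⟩
      have h6 := card_le_card h5
      rw [Nat.card_Icc, Nat.add_sub_cancel] at h6
      have h7 : (⌊2 * √z⌋₊ : ℝ) ≤ 2 * √z := Nat.floor_le (by positivity)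
      have h8 : (B3.card : ℝ) ≤ 2 * √z := le_trans (by exact_mod_cast h6) h7
      rw [hsz] at h8
      have h9 : (X : ℝ) ^ (t / 6) * (X : ℝ) ^ ε ≤ (X : ℝ) ^ (2 * t - h + ε) := by
        rw [← Real.rpow_add hX0]
        apply Real.rpow_le_rpow_of_exponent_le hX1
        linarith
      have h10 : 0 < (X : ℝ) ^ (t / 6) := by positivity
      nlinarith
    · have h5 : B3 = ∅ := by
        rw [hB3]
        apply filter_eq_empty_iff.2
        intro N _ hN
        exact hc hN.1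
      rw [h5]
      simp only [card_empty, Nat.cast_zero]
      positivity
  have hcard := (card_le_card hsub).trans ((card_union_le _ _).trans (Nat.add_le_add_right (card_union_le _ _) _))
  have hcard' : (((Icc 1 X).filter (fun N =>
      ¬ ((primesIn a N H : ℝ) ≤ (2 / t + δ) * (C * ((X : ℝ) ^ h / Real.log X)) ∧
        (2 * Real.log (s - 1) / t - δ) * (C * ((X : ℝ) ^ h / Real.log X)) ≤
          (rough a ((X : ℝ) ^ (t / s)) N H : ℝ)))).card : ℝ) ≤ B1.card + B2.card + B3.card := by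
    exact_mod_cast hcard
  have hhalf : (X : ℝ) ^ (2 * t - h + ε / 2) * 4 ≤ (X : ℝ) ^ (2 * t - h + ε) := by
    have e : (X : ℝ) ^ (2 * t - h + ε) = (X : ℝ) ^ (2 * t - h + ε / 2) * (X : ℝ) ^ (ε / 2) := by
      rw [← Real.rpow_add hX0]; ring_nf
    rw [e]
    exact mul_le_mul_of_nonneg_left e2 (by positivity)
  have hpos : 0 < (X : ℝ) ^ (2 * t - h + ε) := by positivity
  linarith

end Pool.Agent.Q26.JR
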